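import Pool.Agent.TH722.FI.Defs

/-!
# FI-CROSS: the `T`-edges are nice for large `M`, outside a set of small measure
-/

set_option autoImplicit false

open MeasureTheory Set Filter Pool.Agent.TH722.FI
open scoped Topology ENNReal

namespace Pool.Agent.TH124.FI

/-! ### Measurability of reachability -/

theorem meas_reach {V X : Type*} [Countable V] [MeasurableSpace X] (H : X → SimpleGraph V)
    (h : ∀ a b, MeasurableSet {x | (H x).Adj a b}) (u v : V) :
    MeasurableSet {x | (H x).Reachable u v} := by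
  let R : ℕ → V → Set X := fun n => Nat.rec (motive := fun _ => V → Set X)
    (fun v => {_x | u = v}) (fun _ Rn v => ⋃ w, Rn w ∩ {x | (H x).Adj w v}) n
  have R0 : ∀ v, R 0 v = {_x | u = v} := fun v => rfl
  have R1 : ∀ n v, R (n + 1) v = ⋃ w, R n w ∩ {x | (H x).Adj w v} := fun n v => rfl
  have hR : ∀ n v, MeasurableSet (R n v) := by
    intro n
    induction n with
    | zero => intro v; rw [R0]; exact MeasurableSet.const _
    | succ n ih => intro v; rw [R1]; exact MeasurableSet.iUnion fun w => (ih w).inter (h w v)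
  have e : {x | (H x).Reachable u v} = ⋃ n, R n v := by
    ext x
    simp only [mem_ofPred_eq, mem_iUnion]
    rw [SimpleGraph.reachable_iff_reflTransGen]
    constructor
    · intro hx
      induction hx with
      | refl => exact ⟨0, by rw [R0]; rfl⟩
      | tail _ hbc ih =>
        obtain ⟨n, hn⟩ := ih
        exact ⟨n + 1, by rw [R1]; exact mem_iUnion.2 ⟨_, hn, hbc⟩⟩
    · rintro ⟨n, hn⟩
      induction n generalizing v with
      | zero =>
        rw [R0] at hn
        have : u = v := hn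
        subst this
        exact Relation.ReflTransGen.refl
      | succ n ih =>
        rw [R1] at hn
        obtain ⟨w, hw1, hw2⟩ := mem_iUnion.1 hn
        exact (ih w hw1).tail hw2
  rw [e]
  exact MeasurableSet.iUnion fun n => hR n v

section

variable {r : ℕ} {X : Type*} [MeasurableSpace X] {μ : Measure X}
  [MulAction (FreeGroup (Fin r)) X]

local instance countable_fr : Countable (FreeGroup (Fin r)) := by
  have : Function.Surjective (FreeGroup.mk : List (Fin r × Bool) → FreeGroup (Fin r)) :=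
    Quot.mk_surjective
  exact this.countable

theorem meas_eq [StandardBorelSpace X] {f g : X → X} (hf : Measurable f) (hg : Measurable g) :
    MeasurableSet {x | f x = g x} := by
  exact measurableSet_eq_fun hf hg

theorem meas_edge [StandardBorelSpace X] {T : FreeGroup (Fin r) → X → X} (hC : Common μ T)
    (i : Fin r) (a b : FreeGroup (Fin r)) :
    MeasurableSet {x | T (FreeGroup.of i) (a • x) = b • x} :=
  meas_eq ((hC.actT.mp _).measurable.comp (hC.mpU a).measurable) (hC.mpU b).measurable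

theorem meas_TG [StandardBorelSpace X] {T : FreeGroup (Fin r) → X → X} (hC : Common μ T)
    (a b : FreeGroup (Fin r)) : MeasurableSet {x | (TG T x).Adj a b} := by
  have : {x | (TG T x).Adj a b} = {_x : X | a ≠ b} ∩ ⋃ i : Fin r,
      ({x | T (FreeGroup.of i) (a • x) = b • x} ∪ {x | T (FreeGroup.of i) (b • x) = a • x}) := by
    ext x
    simp [TG]
  rw [this]
  exact (MeasurableSet.const _).inter (MeasurableSet.iUnion fun i =>
    (meas_edge hC i a b).union (meas_edge hC i b a))

theorem meas_sep [StandardBorelSpace X] {T : FreeGroup (Fin r) → X → X} (hC : Common μ T)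
    (p q a b : FreeGroup (Fin r)) :
    MeasurableSet {x | ((TG T x).deleteEdges {s(p, q)}).Reachable a b} := by
  refine meas_reach _ (fun a b => ?_) a b
  have : {x | ((TG T x).deleteEdges {s(p, q)}).Adj a b} =
      {x | (TG T x).Adj a b} ∩ {_x | s(a, b) ≠ s(p, q)} := by
    ext x
    simp [SimpleGraph.deleteEdges_adj]
  rw [this]
  exact (meas_TG hC a b).inter (MeasurableSet.const _)

/-- the walk given by a word -/
theorem walk_of {T : FreeGroup (Fin r) → X → X} (hC : Common μ T) (x : X)
    (L : List (Fin r × Bool)) : ∀ (a b : FreeGroup (Fin r)),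
    T (FreeGroup.mk L) (a • x) = b • x → ∃ p : (TG T x).Walk a b, p.length ≤ L.length := by
  induction L with
  | nil =>
    intro a b h
    have h1 : T (FreeGroup.mk []) (a • x) = a • x := hC.actT.one _
    rw [h1] at h
    have h2 : (b⁻¹ * a) • x = x := by rw [mul_smul, h, inv_smul_smul]
    have h3 := hC.freeU _ _ h2
    have h4 : a = b := by
      have := congrArg (fun t => b * t) h3
      simpa using this
    subst h4
    exact ⟨SimpleGraph.Walk.nil, le_rfl⟩
  | cons s L ih =>
    intro a b h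
    obtain ⟨c', hc'⟩ := hC.orb1 (FreeGroup.mk L) (a • x)
    have hc : T (FreeGroup.mk L) (a • x) = (c' * a) • x := by rw [hc', mul_smul]
    obtain ⟨p, hp⟩ := ih a (c' * a) hc
    have h1 : T (FreeGroup.mk (s :: L)) (a • x) = T (FreeGroup.mk [s]) ((c' * a) • x) := by
      rw [← hc, ← hC.actT.mul]
      rfl
    rw [h1] at h
    have hadj : (TG T x).Adj (c' * a) b := by
      obtain ⟨i, e⟩ := s
      cases e
      · have h2 : T (FreeGroup.of i) (b • x) = (c' * a) • x := by
          rw [← h, ← hC.actT.mul]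
          have : FreeGroup.of i * FreeGroup.mk [(i, false)] = 1 := by
            have h5 : FreeGroup.mk [(i, false)] = (FreeGroup.of i)⁻¹ := rfl
            rw [h5, mul_inv_cancel]
          rw [this, hC.actT.one]
        refine ⟨?_, i, Or.inr h2⟩
        intro hne
        rw [hne] at h2
        exact FreeGroup.of_ne_one i (hC.actT.free _ _ h2)
      · have h2 : T (FreeGroup.of i) ((c' * a) • x) = b • x := h
        refine ⟨?_, i, Or.inl h2⟩
        intro hne
        rw [hne] at h2
        exact FreeGroup.of_ne_one i (hC.actT.free _ _ h2)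
    refine ⟨p.concat hadj, ?_⟩
    rw [SimpleGraph.Walk.length_concat, List.length_cons]
    omega

/-- the edge `{a, b}` separates `u` and `v`; then it lies on each walk -/
theorem mem_support {V : Type*} {G : SimpleGraph V} {u v a b : V} (p : G.Walk u v)
    (h : ¬ (G.deleteEdges {s(a, b)}).Reachable u v) : a ∈ p.support := by
  by_contra ha
  apply h
  refine ⟨p.toDeleteEdges _ ?_⟩
  intro e he he2
  rw [mem_singleton_iff] at he2
  subst he2
  exact ha (SimpleGraph.Walk.fst_mem_support_of_mem_edges p he)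

/-- the set of the points at which the edge issued from the base point in direction `i` separates
`g` and `j g` -/
def AA (T : FreeGroup (Fin r) → X → X) (i j : Fin r) (g : FreeGroup (Fin r)) : Set X :=
  {x | ∃ b : FreeGroup (Fin r), T (FreeGroup.of i) x = b • x ∧
    ¬ ((TG T x).deleteEdges {s(1, b)}).Reachable g (FreeGroup.of j * g)}

/-- the set of the points at which the edge issued from `h` in direction `i` separates
`1` and `j` -/
def BB (T : FreeGroup (Fin r) → X → X) (i j : Fin r) (h : FreeGroup (Fin r)) : Set X :=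
  {x | ∃ b : FreeGroup (Fin r), T (FreeGroup.of i) (h • x) = b • x ∧
    ¬ ((TG T x).deleteEdges {s(h, b)}).Reachable 1 (FreeGroup.of j)}

theorem meas_AA [StandardBorelSpace X] {T : FreeGroup (Fin r) → X → X} (hC : Common μ T)
    (i j : Fin r) (g : FreeGroup (Fin r)) : MeasurableSet (AA T i j g) := by
  have : AA T i j g = ⋃ b : FreeGroup (Fin r), {x | T (FreeGroup.of i) ((1 : FreeGroup (Fin r)) • x) = b • x} ∩
      {x | ((TG T x).deleteEdges {s(1, b)}).Reachable g (FreeGroup.of j * g)}ᶜ := by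
    ext x
    simp [AA]
  rw [this]
  exact MeasurableSet.iUnion fun b => (meas_edge hC i 1 b).inter (meas_sep hC _ _ _ _).compl

theorem meas_BB [StandardBorelSpace X] {T : FreeGroup (Fin r) → X → X} (hC : Common μ T)
    (i j : Fin r) (h : FreeGroup (Fin r)) : MeasurableSet (BB T i j h) := by
  have : BB T i j h = ⋃ b : FreeGroup (Fin r), {x | T (FreeGroup.of i) (h • x) = b • x} ∩
      {x | ((TG T x).deleteEdges {s(h, b)}).Reachable 1 (FreeGroup.of j)}ᶜ := by
    ext x
    simp [BB]
  rw [this]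
  exact MeasurableSet.iUnion fun b => (meas_edge hC i h b).inter (meas_sep hC _ _ _ _).compl

omit [MeasurableSpace X] in
theorem AA_sub_BB (T : FreeGroup (Fin r) → X → X) (i j : Fin r) (h : FreeGroup (Fin r)) :
    (fun x : X => h • x) ⁻¹' AA T i j h⁻¹ ⊆ BB T i j h := by
  rintro x ⟨b, hb1, hb2⟩
  refine ⟨b * h, by rw [hb1, mul_smul], ?_⟩
  intro hr
  apply hb2
  have hhom : ∀ {a c : FreeGroup (Fin r)},
      ((TG T x).deleteEdges {s(h, b * h)}).Adj a c →
      ((TG T (h • x)).deleteEdges {s(1, b)}).Adj (a * h⁻¹) (c * h⁻¹) := by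
    intro a c hac
    rw [SimpleGraph.deleteEdges_adj] at hac ⊢
    obtain ⟨⟨hne, i', hi'⟩, hs⟩ := hac
    refine ⟨⟨?_, i', ?_⟩, ?_⟩
    · intro h1
      exact hne (mul_right_cancel h1)
    · have e1 : (a * h⁻¹) • h • x = a • x := by rw [smul_smul, inv_mul_cancel_right]
      have e2 : (c * h⁻¹) • h • x = c • x := by rw [smul_smul, inv_mul_cancel_right]
      rw [e1, e2]
      exact hi'
    · intro h1
      apply hs
      rw [mem_singleton_iff] at h1 ⊢
      rw [Sym2.eq_iff] at h1 ⊢
      rcases h1 with ⟨h1, h2⟩ | ⟨h1, h2⟩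
      · left
        exact ⟨mul_inv_eq_one.1 h1, mul_inv_eq_iff_eq_mul.1 h2⟩
      · right
        exact ⟨mul_inv_eq_iff_eq_mul.1 h1, mul_inv_eq_one.1 h2⟩
  let φ : (TG T x).deleteEdges {s(h, b * h)} →g (TG T (h • x)).deleteEdges {s(1, b)} :=
    ⟨fun a => a * h⁻¹, fun hac => hhom hac⟩
  have h2 := hr.map φ
  have e3 : φ 1 = h⁻¹ := one_mul _
  have e4 : φ (FreeGroup.of j) = FreeGroup.of j * h⁻¹ := rfl
  rw [e3, e4] at h2
  exact h2

theorem measure_AA_le {T : FreeGroup (Fin r) → X → X} [StandardBorelSpace X] (hC : Common μ T)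
    (i j : Fin r) (g : FreeGroup (Fin r)) : μ (AA T i j g) ≤ μ (BB T i j g⁻¹) := by
  have h1 := (hC.mpU g⁻¹).measure_preimage (meas_AA hC i j g).nullMeasurableSet
  rw [← h1]
  refine measure_mono ?_
  have := AA_sub_BB T i j g⁻¹
  rwa [inv_inv] at this

theorem sum_BB {T : FreeGroup (Fin r) → X → X} (hC : Common μ T)
    (α : Fin r → X → FreeGroup (Fin r)) (hα : ∀ i x, FreeGroup.of i • x = T (α i x) x)
    (i j : Fin r) (x : X) :
    ∑' h : FreeGroup (Fin r), (BB T i j h).indicator (fun _ => (1 : ℝ≥0∞)) x ≤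
      ((α j x).norm : ℝ≥0∞) + 1 := by
  classical
  have h0 : T (FreeGroup.mk (α j x).toWord) ((1 : FreeGroup (Fin r)) • x) = FreeGroup.of j • x := by
    rw [FreeGroup.mk_toWord, one_smul, hα]
  obtain ⟨p, hp⟩ := walk_of hC x _ _ _ h0
  have hsub : ∀ h, x ∈ BB T i j h → h ∈ p.support.toFinset := by
    rintro h ⟨b, _, hb⟩
    rw [List.mem_toFinset]
    exact mem_support p hb
  calc ∑' h : FreeGroup (Fin r), (BB T i j h).indicator (fun _ => (1 : ℝ≥0∞)) x
      ≤ ∑' h : FreeGroup (Fin r), (if h ∈ p.support.toFinset then (1 : ℝ≥0∞) else 0) := by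
        refine ENNReal.tsum_le_tsum fun h => ?_
        by_cases hx : x ∈ BB T i j h
        · rw [indicator_of_mem hx, if_pos (hsub h hx)]
        · rw [indicator_of_notMem hx]
          exact zero_le
    _ = ∑ h ∈ p.support.toFinset, (1 : ℝ≥0∞) := by
        rw [tsum_eq_sum (s := p.support.toFinset)]
        · exact Finset.sum_congr rfl fun h hh => if_pos hh
        · intro h hh
          exact if_neg hh
    _ = (p.support.toFinset.card : ℝ≥0∞) := by simp
    _ ≤ ((α j x).norm : ℝ≥0∞) + 1 := by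
        have h1 : p.support.toFinset.card ≤ (α j x).norm + 1 := by
          refine le_trans (List.toFinset_card_le _) ?_
          rw [SimpleGraph.Walk.length_support]
          exact Nat.succ_le_succ hp
        exact_mod_cast h1

theorem sum_AA [StandardBorelSpace X] [IsProbabilityMeasure μ] {T : FreeGroup (Fin r) → X → X}
    (hC : Common μ T)
    (α : Fin r → X → FreeGroup (Fin r)) (hα : ∀ i x, FreeGroup.of i • x = T (α i x) x)
    (hα1 : ∀ i, Integrable (fun x => ((α i x).norm : ℝ)) μ) (i j : Fin r) :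
    ∑' g : FreeGroup (Fin r), μ (AA T i j g) ≠ ∞ := by
  have h1 : ∑' g : FreeGroup (Fin r), μ (AA T i j g) ≤
      ∑' g : FreeGroup (Fin r), μ (BB T i j g) := by
    calc _ ≤ ∑' g : FreeGroup (Fin r), μ (BB T i j g⁻¹) :=
          ENNReal.tsum_le_tsum fun g => measure_AA_le hC i j g
      _ = _ := (Equiv.inv (FreeGroup (Fin r))).tsum_eq (fun g => μ (BB T i j g))
  have h2 : ∑' g : FreeGroup (Fin r), μ (BB T i j g) ≤
      ∫⁻ x, (((α j x).norm : ℝ≥0∞) + 1) ∂μ := by
    calc _ = ∑' g : FreeGroup (Fin r), ∫⁻ x, (BB T i j g).indicator (fun _ => (1 : ℝ≥0∞)) x ∂μ := by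
          refine tsum_congr fun g => ?_
          rw [lintegral_indicator (meas_BB hC i j g)]
          simp
      _ = ∫⁻ x, ∑' g : FreeGroup (Fin r), (BB T i j g).indicator (fun _ => (1 : ℝ≥0∞)) x ∂μ := by
          rw [lintegral_tsum]
          intro g
          exact (measurable_const.indicator (meas_BB hC i j g)).aemeasurable
      _ ≤ _ := lintegral_mono fun x => sum_BB hC α hα i j x
  have h3 : ∫⁻ x, (((α j x).norm : ℝ≥0∞) + 1) ∂μ < ∞ := by
    have h4 : ∫⁻ x, ((α j x).norm : ℝ≥0∞) ∂μ < ∞ := by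
      have h5 := (hα1 j).2
      unfold HasFiniteIntegral at h5
      refine lt_of_le_of_lt (lintegral_mono fun x => ?_) h5
      rw [← ofReal_norm, Real.norm_natCast]
      simp
    rw [lintegral_add_right _ measurable_const]
    simp only [lintegral_const, measure_univ, mul_one]
    exact ENNReal.add_lt_top.2 ⟨h4, ENNReal.one_lt_top⟩
  exact (lt_of_le_of_lt (h1.trans h2) h3).ne

/-- for almost all points the edges issued from the base point are nice -/
theorem exists_nice [StandardBorelSpace X] [IsProbabilityMeasure μ]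
    {T : FreeGroup (Fin r) → X → X} (hC : Common μ T)
    (α : Fin r → X → FreeGroup (Fin r)) (hα : ∀ i x, FreeGroup.of i • x = T (α i x) x)
    (hα1 : ∀ i, Integrable (fun x => ((α i x).norm : ℝ)) μ) (i : Fin r) :
    ∀ᵐ x ∂μ, ∀ b : FreeGroup (Fin r), T (FreeGroup.of i) x = b • x →
      ∃ M, Nice (CG r) (TG T x) M 1 b := by
  have h1 : ∀ j, ∀ᵐ x ∂μ, {g | x ∈ AA T i j g}.Finite := fun j =>
    ae_finite_setOfPred_mem (sum_AA hC α hα hα1 i j)
  have h2 := ae_all_iff.2 h1
  filter_upwards [h2] with x hx b hb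
  -- the finite set of crossing edges
  have hfin : {g : FreeGroup (Fin r) | ∃ j, x ∈ AA T i j g}.Finite := by
    have : {g : FreeGroup (Fin r) | ∃ j, x ∈ AA T i j g} = ⋃ j, {g | x ∈ AA T i j g} := by
      ext g; simp
    rw [this]
    exact finite_iUnion hx
  have hfin2 : (⋃ g ∈ {g : FreeGroup (Fin r) | ∃ j, x ∈ AA T i j g},
      ({(CG r).dist g 1, (CG r).dist g b} ∪
      (⋃ j : Fin r, {(CG r).dist (FreeGroup.of j * g) 1, (CG r).dist (FreeGroup.of j * g) b}) :
      Set ℕ)).Finite := by
    refine hfin.biUnion fun g _ => ?_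
    refine Set.Finite.union (by simp) (finite_iUnion fun j => by simp)
  obtain ⟨M0, hM0⟩ := hfin2.bddAbove
  have key : ∀ (g : FreeGroup (Fin r)) (j : Fin r),
      ¬ ((TG T x).deleteEdges {s(1, b)}).Reachable g (FreeGroup.of j * g) →
      ((CG r).dist g 1 ≤ M0 ∧ (CG r).dist g b ≤ M0) ∧
      (CG r).dist (FreeGroup.of j * g) 1 ≤ M0 ∧ (CG r).dist (FreeGroup.of j * g) b ≤ M0 := by
    intro g j hgj
    have hg : x ∈ AA T i j g := ⟨b, hb, hgj⟩
    have m1 : ∀ d ∈ ({(CG r).dist g 1, (CG r).dist g b} ∪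
      (⋃ j : Fin r, {(CG r).dist (FreeGroup.of j * g) 1, (CG r).dist (FreeGroup.of j * g) b}) :
      Set ℕ), d ≤ M0 := by
      intro d hd
      exact hM0 (mem_biUnion (show g ∈ {g : FreeGroup (Fin r) | ∃ j, x ∈ AA T i j g} from
        ⟨j, hg⟩) hd)
    refine ⟨⟨m1 _ (Or.inl (by simp)), m1 _ (Or.inl (by simp))⟩, m1 _ (Or.inr ?_),
      m1 _ (Or.inr ?_)⟩
    · exact mem_iUnion.2 ⟨j, by simp⟩
    · exact mem_iUnion.2 ⟨j, by simp⟩
  refine ⟨max M0 ((CG r).dist 1 b), le_max_right _ _, ?_⟩
  intro u v huv hsep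
  obtain ⟨j, h | h⟩ := huv
  · subst h
    have := key u j hsep
    exact ⟨this.1.1.trans (le_max_left _ _), this.1.2.trans (le_max_left _ _)⟩
  · subst h
    have := key v j (fun h => hsep h.symm)
    exact ⟨this.2.1.trans (le_max_left _ _), this.2.2.trans (le_max_left _ _)⟩

theorem Nice.mono {V : Type*} {U T : SimpleGraph V} {M M' : ℕ} {a b : V} (h : M ≤ M')
    (hn : Nice U T M a b) : Nice U T M' a b :=
  ⟨hn.1.trans h, fun u v huv hs => ⟨(hn.2 u v huv hs).1.trans h, (hn.2 u v huv hs).2.trans h⟩⟩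

theorem meas_nice [StandardBorelSpace X] {T : FreeGroup (Fin r) → X → X} (hC : Common μ T)
    (M : ℕ) (a b : FreeGroup (Fin r)) :
    MeasurableSet {x | Nice (CG r) (TG T x) M a b} := by
  have : {x | Nice (CG r) (TG T x) M a b} = {_x : X | (CG r).dist a b ≤ M} ∩
      ⋂ u : FreeGroup (Fin r), ⋂ v : FreeGroup (Fin r),
      ({_x : X | ¬ (CG r).Adj u v} ∪ {x | ((TG T x).deleteEdges {s(a, b)}).Reachable u v} ∪
        {_x : X | (CG r).dist u a ≤ M ∧ (CG r).dist u b ≤ M}) := by
    ext x
    simp only [Nice, mem_ofPred_eq, mem_inter_iff, mem_iInter, mem_union]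
    refine and_congr Iff.rfl (forall_congr' fun u => forall_congr' fun v => ?_)
    tauto
  rw [this]
  exact (MeasurableSet.const _).inter (MeasurableSet.iInter fun u => MeasurableSet.iInter fun v =>
    ((MeasurableSet.const _).union (meas_sep hC _ _ _ _)).union (MeasurableSet.const _))

/-- FI-CROSS -/
theorem nice_exhaust [StandardBorelSpace X] [IsProbabilityMeasure μ]
    (T : FreeGroup (Fin r) → X → X) (hC : Common μ T)
    (α : Fin r → X → FreeGroup (Fin r)) (hα : ∀ i x, FreeGroup.of i • x = T (α i x) x)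
    (hα1 : ∀ i, Integrable (fun x => ((α i x).norm : ℝ)) μ) (δ : ℝ) (hδ : 0 < δ) :
    ∃ M0, ∀ M ≥ M0, ∀ i : Fin r,
      μ.real {x | ∃ b : FreeGroup (Fin r), T (FreeGroup.of i) x = b • x ∧
        ¬ Nice (CG r) (TG T x) M 1 b} ≤ δ := by
  let S : Fin r → ℕ → Set X := fun i M => {x | ∃ b : FreeGroup (Fin r),
    T (FreeGroup.of i) x = b • x ∧ ¬ Nice (CG r) (TG T x) M 1 b}
  have hmeas : ∀ i M, MeasurableSet (S i M) := by
    intro i M
    have : S i M = ⋃ b : FreeGroup (Fin r),
        {x | T (FreeGroup.of i) ((1 : FreeGroup (Fin r)) • x) = b • x} ∩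
        {x | Nice (CG r) (TG T x) M 1 b}ᶜ := by
      ext x
      simp [S]
    rw [this]
    exact MeasurableSet.iUnion fun b => (meas_edge hC i 1 b).inter (meas_nice hC M 1 b).compl
  have hanti : ∀ i, Antitone (S i) := by
    intro i M M' hM x hx
    obtain ⟨b, h1, h2⟩ := hx
    exact ⟨b, h1, fun h => h2 (Nice.mono hM h)⟩
  have hnull : ∀ i, μ (⋂ M, S i M) = 0 := by
    intro i
    have h1 := exists_nice hC α hα hα1 i
    have h2 : ∀ᵐ x ∂μ, x ∉ ⋂ M, S i M := by
      filter_upwards [h1] with x hx hmem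
      obtain ⟨b, hb, _⟩ := mem_iInter.1 hmem 0
      obtain ⟨M, hM⟩ := hx b hb
      obtain ⟨b', hb', hn⟩ := mem_iInter.1 hmem M
      have h3 : (b'⁻¹ * b) • x = x := by rw [mul_smul, ← hb, hb', inv_smul_smul]
      have h4 := hC.freeU _ _ h3
      have h5 : b = b' := by
        have := congrArg (fun t => b' * t) h4
        simpa using this
      rw [← h5] at hn
      exact hn hM
    rwa [ae_iff, show {a | ¬ a ∉ ⋂ M, S i M} = ⋂ M, S i M by ext; simp] at h2
  have htend : ∀ i, ∃ M0, ∀ M ≥ M0, μ.real (S i M) ≤ δ := by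
    intro i
    have h1 : Tendsto (fun M => μ (S i M)) atTop (𝓝 (μ (⋂ M, S i M))) :=
      tendsto_measure_iInter_atTop (fun M => (hmeas i M).nullMeasurableSet) (hanti i)
        ⟨0, measure_ne_top _ _⟩
    rw [hnull] at h1
    have h2 : ∀ᶠ M in atTop, μ (S i M) < ENNReal.ofReal δ :=
      h1.eventually_lt_const (ENNReal.ofReal_pos.2 hδ)
    obtain ⟨M0, hM0⟩ := eventually_atTop.1 h2
    refine ⟨M0, fun M hM => ?_⟩
    have h3 := (hM0 M hM).le
    exact ENNReal.toReal_le_of_le_ofReal hδ.le h3
  choose M0 hM0 using htend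
  refine ⟨Finset.univ.sup M0, fun M hM i => hM0 i M (le_trans ?_ hM)⟩
  exact Finset.le_sup (Finset.mem_univ i)

end

end Pool.Agent.TH124.FI
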